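import Pool.Agent.Y171.CE.Stm

/-!
# Job CE-RG: random group elements make subgroups span (helper475)
-/

set_option autoImplicit false

open Matrix

namespace Pool.Agent.Y475.CE

open Pool.Agent.Y171.CE

section

variable {F : Type} [Field F]

theorem inv_act (h : SL2 F) (v : Fin 2 → F) : act h⁻¹ (act h v) = v := by
  rw [← act_mul, inv_mul_cancel, act_one]

theorem act_inv (h : SL2 F) (v : Fin 2 → F) : act h (act h⁻¹ v) = v := by
  rw [← act_mul, mul_inv_cancel, act_one]

theorem act_inj (h : SL2 F) : Function.Injective (act h) := by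
  intro a b hab
  have h1 := congrArg (act h⁻¹) hab
  rwa [inv_act, inv_act] at h1

theorem trans1 (u : Fin 2 → F) (hu : u ≠ 0) : ∃ g : SL2 F, act g ![1, 0] = u := by
  by_cases ha : u 0 = 0
  · have hb : u 1 ≠ 0 := by
      intro hb
      apply hu
      ext i
      fin_cases i
      · exact ha
      · exact hb
    refine ⟨⟨!![0, -(u 1)⁻¹; u 1, 0], ?_⟩, ?_⟩
    · rw [Matrix.det_fin_two_of]
      field_simp
      ring
    · ext i
      fin_cases i
      · simp [act, ha]
      · simp [act]
  · refine ⟨⟨!![u 0, 0; u 1, (u 0)⁻¹], ?_⟩, ?_⟩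
    · rw [Matrix.det_fin_two_of]
      field_simp
      ring
    · ext i
      fin_cases i
      · simp [act]
      · simp [act]

theorem trans2 (u u' : Fin 2 → F) (hu : u ≠ 0) (hu' : u' ≠ 0) : ∃ g : SL2 F, act g u = u' := by
  obtain ⟨g, hg⟩ := trans1 u hu
  obtain ⟨g', hg'⟩ := trans1 u' hu'
  refine ⟨g' * g⁻¹, ?_⟩
  rw [act_mul, ← hg, inv_act, hg']

theorem cnt [Fintype F] [DecidableEq F] (u w : Fin 2 → F) (hw : w ≠ 0) (hu : u ≠ 0) :
    ((Fintype.card F : ℝ) ^ 2 - 1) *
      ((Finset.univ.filter (fun h : SL2 F => act h w = u)).card : ℝ) = Fintype.card (SL2 F) := by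
  have h1 : ∀ u' : Fin 2 → F, u' ≠ 0 →
      (Finset.univ.filter (fun h : SL2 F => act h w = u')).card =
      (Finset.univ.filter (fun h : SL2 F => act h w = u)).card := by
    intro u' hu'
    obtain ⟨g, hg⟩ := trans2 u' u hu' hu
    refine Finset.card_bij (fun h _ => g * h) ?_ ?_ ?_
    · intro h hh
      simp only [Finset.mem_filter, Finset.mem_univ, true_and] at hh ⊢
      rw [act_mul, hh, hg]
    · intro a _ b _ hab
      exact mul_left_cancel hab
    · intro h hh
      simp only [Finset.mem_filter, Finset.mem_univ, true_and] at hh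
      refine ⟨g⁻¹ * h, ?_, ?_⟩
      · simp only [Finset.mem_filter, Finset.mem_univ, true_and]
        rw [act_mul, hh, ← hg, inv_act]
      · exact mul_inv_cancel_left g h
  have h2 := Finset.card_eq_sum_card_fiberwise (f := fun h : SL2 F => act h w)
    (s := Finset.univ) (t := Finset.univ.erase (0 : Fin 2 → F)) (by
      intro h _
      simp only [Finset.coe_erase, Finset.coe_univ, Set.mem_sdiff, Set.mem_univ, true_and,
        Set.mem_singleton_iff]
      intro h0
      apply hw
      apply act_inj h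
      rw [h0, map_zero])
  rw [Finset.sum_congr rfl (fun u' hu' => h1 u' (Finset.ne_of_mem_erase hu')), Finset.sum_const,
    Finset.card_erase_of_mem (Finset.mem_univ _), smul_eq_mul, Finset.card_univ, Finset.card_univ,
    Fintype.card_fun, Fintype.card_fin] at h2
  have h3 : 1 ≤ Fintype.card F ^ 2 := Nat.one_le_pow _ _ Fintype.card_pos
  rw [h2]
  push_cast [Nat.cast_sub h3]
  ring

theorem card_sup (U W : AddSubgroup (Fin 2 → F)) :
    Nat.card (U ⊔ W : AddSubgroup (Fin 2 → F)) * Nat.card (W ⊓ U : AddSubgroup (Fin 2 → F))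
      = Nat.card U * Nat.card W := by
  have e1 : Nat.card W * W.relIndex (U ⊔ W) = Nat.card (U ⊔ W : AddSubgroup (Fin 2 → F)) := by
    have := AddSubgroup.relIndex_mul_relIndex (⊥ : AddSubgroup (Fin 2 → F)) W (U ⊔ W) bot_le le_sup_right
    rwa [AddSubgroup.relIndex_bot_left, AddSubgroup.relIndex_bot_left] at this
  have e2 : Nat.card (W ⊓ U : AddSubgroup (Fin 2 → F)) * (W ⊓ U).relIndex U = Nat.card U := by
    have := AddSubgroup.relIndex_mul_relIndex (⊥ : AddSubgroup (Fin 2 → F)) (W ⊓ U) U bot_le inf_le_right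
    rwa [AddSubgroup.relIndex_bot_left, AddSubgroup.relIndex_bot_left] at this
  rw [AddSubgroup.relIndex_sup_right] at e1
  rw [AddSubgroup.inf_relIndex_right] at e2
  rw [← e1, ← e2]
  ring

theorem card_map (W : AddSubgroup (Fin 2 → F)) (h : SL2 F) :
    Nat.card (W.map (act h)) = Nat.card W :=
  (Nat.card_congr (AddSubgroup.equivMapOfInjective W (act h) (act_inj h)).toEquiv).symm

open Classical in
theorem sum_inf [Fintype F] [DecidableEq F] (U W : AddSubgroup (Fin 2 → F)) :
    ((Fintype.card F : ℝ) ^ 2 - 1) * ∑ h : SL2 F,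
      (Nat.card (W.map (act h) ⊓ U : AddSubgroup (Fin 2 → F)) : ℝ) =
    Fintype.card (SL2 F) * (((Fintype.card F : ℝ) ^ 2 - 1) +
      ((Nat.card U : ℝ) - 1) * ((Nat.card W : ℝ) - 1)) := by
  have h1 : ∀ h : SL2 F, (Nat.card (W.map (act h) ⊓ U : AddSubgroup (Fin 2 → F)) : ℝ) =
      ∑ u : Fin 2 → F, ∑ w : Fin 2 → F,
        (if u ∈ U then 1 else 0) * (if w ∈ W then 1 else 0) * (if act h w = u then (1 : ℝ) else 0) := by
    intro h
    have h2 : (Nat.card (W.map (act h) ⊓ U : AddSubgroup (Fin 2 → F)) : ℝ) =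
        ∑ u : Fin 2 → F, if u ∈ U ∧ u ∈ W.map (act h) then (1 : ℝ) else 0 := by
      rw [Finset.sum_boole, Nat.card_eq_fintype_card]
      congr 1
      rw [Fintype.card_subtype]
      congr 1
      ext u
      simp only [Finset.mem_filter, Finset.mem_univ, true_and, AddSubgroup.mem_inf]
      exact And.comm
    rw [h2]
    refine Finset.sum_congr rfl (fun u _ => ?_)
    have h3 : ∀ w : Fin 2 → F, (if u ∈ U then (1 : ℝ) else 0) * (if w ∈ W then 1 else 0) *
        (if act h w = u then (1 : ℝ) else 0) =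
        if w = act h⁻¹ u then (if u ∈ U ∧ w ∈ W then 1 else 0) else 0 := by
      intro w
      by_cases hw : w = act h⁻¹ u
      · have : act h w = u := by rw [hw, act_inv]
        rw [if_pos this, if_pos hw]
        by_cases ha : u ∈ U <;> by_cases hb : w ∈ W <;> simp [ha, hb]
      · have : act h w ≠ u := by
          intro h4
          apply hw
          rw [← h4, inv_act]
        rw [if_neg this, if_neg hw, mul_zero]
    rw [Finset.sum_congr rfl (fun w _ => h3 w), Finset.sum_ite_eq', if_pos (Finset.mem_univ _)]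
    have h5 : u ∈ W.map (act h) ↔ act h⁻¹ u ∈ W := by
      rw [AddSubgroup.mem_map]
      constructor
      · rintro ⟨w, hw, rfl⟩
        rwa [inv_act]
      · intro hw
        exact ⟨_, hw, act_inv h u⟩
    simp only [h5]
  have h6 : ∀ u w : Fin 2 → F, ((Fintype.card F : ℝ) ^ 2 - 1) *
      ∑ h : SL2 F, (if act h w = u then (1 : ℝ) else 0) =
      Fintype.card (SL2 F) * (((Fintype.card F : ℝ) ^ 2 - 1) * ((if u = 0 then 1 else 0) *
        (if w = 0 then 1 else 0)) + (1 - (if u = 0 then 1 else 0)) * (1 - (if w = 0 then 1 else 0))) := by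
    intro u w
    rw [Finset.sum_boole]
    by_cases hu : u = 0 <;> by_cases hw : w = 0
    · subst hu
      subst hw
      simp only [map_zero, if_true, Finset.filter_true, Finset.card_univ]
      ring
    · subst hu
      have : Finset.univ.filter (fun h : SL2 F => act h w = 0) = ∅ := by
        rw [Finset.filter_eq_empty_iff]
        intro h _ h0
        exact hw (act_inj h (by rw [h0, map_zero]))
      rw [this]
      simp [hw]
    · subst hw
      have : Finset.univ.filter (fun h : SL2 F => act h 0 = u) = ∅ := by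
        rw [Finset.filter_eq_empty_iff]
        intro h _ h0
        rw [map_zero] at h0
        exact hu h0.symm
      rw [this]
      simp [hu]
    · rw [cnt u w hw hu]
      simp [hu, hw]
  have hsum : ∀ S : AddSubgroup (Fin 2 → F), (∑ u : Fin 2 → F, (if u ∈ S then (1 : ℝ) else 0)) = Nat.card S ∧
      (∑ u : Fin 2 → F, (if u ∈ S then (1 : ℝ) else 0) * (if u = 0 then 1 else 0)) = 1 := by
    intro S
    constructor
    · rw [Finset.sum_boole, Nat.card_eq_fintype_card, Fintype.card_subtype]
    · rw [Finset.sum_congr rfl (fun u _ => show (if u ∈ S then (1 : ℝ) else 0) * (if u = 0 then 1 else 0) =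
        if u = 0 then 1 else 0 by
          by_cases hu : u = 0
          · subst hu
            simp [S.zero_mem]
          · simp [hu])]
      rw [Finset.sum_ite_eq', if_pos (Finset.mem_univ _)]
  rw [Finset.sum_congr rfl (fun h _ => h1 h), Finset.sum_comm, Finset.mul_sum]
  have h7 : ∀ u : Fin 2 → F, ((Fintype.card F : ℝ) ^ 2 - 1) * ∑ h : SL2 F, ∑ w : Fin 2 → F,
        (if u ∈ U then 1 else 0) * (if w ∈ W then 1 else 0) * (if act h w = u then (1 : ℝ) else 0) =
      Fintype.card (SL2 F) * (((Fintype.card F : ℝ) ^ 2 - 1) *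
        ((if u ∈ U then (1 : ℝ) else 0) * (if u = 0 then 1 else 0)) +
        ((if u ∈ U then (1 : ℝ) else 0) - (if u ∈ U then (1 : ℝ) else 0) * (if u = 0 then 1 else 0)) *
        ((Nat.card W : ℝ) - 1)) := by
    intro u
    rw [Finset.sum_comm, Finset.mul_sum]
    have h8 : ∀ w : Fin 2 → F, ((Fintype.card F : ℝ) ^ 2 - 1) * ∑ h : SL2 F,
        (if u ∈ U then 1 else 0) * (if w ∈ W then 1 else 0) * (if act h w = u then (1 : ℝ) else 0) =
        Fintype.card (SL2 F) * (((Fintype.card F : ℝ) ^ 2 - 1) *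
        ((if u ∈ U then (1 : ℝ) else 0) * (if u = 0 then 1 else 0)) *
          ((if w ∈ W then (1 : ℝ) else 0) * (if w = 0 then 1 else 0)) +
        ((if u ∈ U then (1 : ℝ) else 0) - (if u ∈ U then (1 : ℝ) else 0) * (if u = 0 then 1 else 0)) *
        ((if w ∈ W then (1 : ℝ) else 0) - (if w ∈ W then (1 : ℝ) else 0) * (if w = 0 then 1 else 0))) := by
      intro w
      rw [← Finset.mul_sum]
      have := h6 u w
      calc _ = (if u ∈ U then 1 else 0) * (if w ∈ W then 1 else 0) * (((Fintype.card F : ℝ) ^ 2 - 1) *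
          ∑ h : SL2 F, (if act h w = u then (1 : ℝ) else 0)) := by ring
        _ = _ := by rw [this]; ring
    rw [Finset.sum_congr rfl (fun w _ => h8 w), ← Finset.mul_sum, Finset.sum_add_distrib,
      ← Finset.mul_sum, ← Finset.mul_sum, Finset.sum_sub_distrib, (hsum W).1, (hsum W).2]
    ring
  rw [Finset.sum_congr rfl (fun u _ => h7 u), ← Finset.mul_sum, Finset.sum_add_distrib,
      ← Finset.mul_sum, ← Finset.sum_mul, Finset.sum_sub_distrib, (hsum U).1, (hsum U).2]
  ring

end

theorem rg : S_RG := by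
  intro F _ _ _ U W
  have hU : (0 : ℝ) < Nat.card U := by exact_mod_cast Nat.card_pos
  have hW : (0 : ℝ) < Nat.card W := by exact_mod_cast Nat.card_pos
  have hU1 : (1 : ℝ) ≤ Nat.card U := by exact_mod_cast Nat.card_pos
  have hW1 : (1 : ℝ) ≤ Nat.card W := by exact_mod_cast Nat.card_pos
  have hn : (4 : ℝ) ≤ (Fintype.card F : ℝ) ^ 2 := by
    have h2 : (2 : ℝ) ≤ Fintype.card F := by exact_mod_cast Fintype.one_lt_card
    nlinarith
  have hUn : (Nat.card U : ℝ) ≤ (Fintype.card F : ℝ) ^ 2 := by
    have h3 : Nat.card U ≤ Nat.card (Fin 2 → F) := Nat.card_le_card_of_injective _ Subtype.val_injective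
    rw [Nat.card_eq_fintype_card (α := Fin 2 → F), Fintype.card_fun, Fintype.card_fin] at h3
    exact_mod_cast h3
  have h1 : ∀ h : SL2 F, (Fintype.card F : ℝ) ^ 2 /
      Nat.card (U ⊔ W.map (act h) : AddSubgroup (Fin 2 → F)) - 1 =
      (Fintype.card F : ℝ) ^ 2 / (Nat.card U * Nat.card W) *
        Nat.card (W.map (act h) ⊓ U : AddSubgroup (Fin 2 → F)) - 1 := by
    intro h
    have e := card_sup U (W.map (act h))
    rw [card_map] at e
    have e' : (Nat.card (U ⊔ W.map (act h) : AddSubgroup (Fin 2 → F)) : ℝ) *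
        Nat.card (W.map (act h) ⊓ U : AddSubgroup (Fin 2 → F)) = Nat.card U * Nat.card W := by
      exact_mod_cast e
    have p1 : (0 : ℝ) < Nat.card (U ⊔ W.map (act h) : AddSubgroup (Fin 2 → F)) := by
      exact_mod_cast Nat.card_pos
    have p2 : (0 : ℝ) < Nat.card (W.map (act h) ⊓ U : AddSubgroup (Fin 2 → F)) := by
      exact_mod_cast Nat.card_pos
    rw [← e']
    field_simp
  rw [Finset.sum_congr rfl (fun h _ => h1 h), Finset.sum_sub_distrib, ← Finset.mul_sum,
    Finset.sum_const, Finset.card_univ, nsmul_eq_mul, mul_one]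
  have h2 := sum_inf U W
  set n : ℝ := (Fintype.card F : ℝ) ^ 2 with hn'
  set Q : ℝ := (Fintype.card (SL2 F) : ℝ) with hQ
  have hQ0 : 0 ≤ Q := by rw [hQ]; positivity
  set S : ℝ := ∑ h : SL2 F, (Nat.card (W.map (act h) ⊓ U : AddSubgroup (Fin 2 → F)) : ℝ) with hS
  set a : ℝ := (Nat.card U : ℝ) with ha
  set b : ℝ := (Nat.card W : ℝ) with hb
  have h3 : S = Q * (1 + (a - 1) * (b - 1) / (n - 1)) := by
    have : n - 1 ≠ 0 := by linarith
    field_simp
    linarith
  have h4 : n * ((a - 1) / (n - 1)) ≤ a := by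
    rw [mul_div_assoc', div_le_iff₀ (by linarith)]
    nlinarith
  have h5 : n / (a * b) * S - Q = Q * ((n + n * ((a - 1) / (n - 1)) * (b - 1) - a * b) / (a * b)) := by
    rw [h3]
    field_simp
  have h6 : (n / a - 1) / b = (n - a) / (a * b) := by
    field_simp
  rw [h5, h6]
  apply mul_le_mul_of_nonneg_left _ hQ0
  apply div_le_div_of_nonneg_right _ (by positivity)
  have : n * ((a - 1) / (n - 1)) * (b - 1) ≤ a * (b - 1) := mul_le_mul_of_nonneg_right h4 (by linarith)
  linarith

theorem US_le {F : Type} [Field F] (L : AddSubgroup (Fin 2 → F)) (l l' : List (SL2 F)) :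
    US L l ⊔ (US L l').map (act l.prod) ≤ US L (l ++ l') := by
  induction l with
  | nil =>
    have h1 : (US L l').map (act (1 : SL2 F)) = US L l' := by
      ext v
      rw [AddSubgroup.mem_map]
      constructor
      · rintro ⟨w, hw, rfl⟩
        rwa [act_one]
      · intro hv
        exact ⟨v, hv, act_one v⟩
    rw [List.nil_append, List.prod_nil, h1, US, sup_le_iff]
    refine ⟨?_, le_rfl⟩
    cases l' with
    | nil => exact le_rfl
    | cons g l => exact le_sup_left
  | cons g l ih =>
    rw [List.cons_append, US, US, List.prod_cons]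
    have h2 : (US L l').map (act (g * l.prod)) = ((US L l').map (act l.prod)).map (act g) := by
      rw [AddSubgroup.map_map]
      congr 1
      exact DFunLike.ext _ _ (fun v => act_mul g l.prod v)
    rw [h2, sup_assoc, ← AddSubgroup.map_sup]
    exact sup_le_sup_left (AddSubgroup.map_mono ih) L

theorem rgj_aux (hrg : S_RG) (F : Type) [Field F] [Fintype F] [DecidableEq F]
    (L : AddSubgroup (Fin 2 → F)) (w : ℕ) (hw : 1 ≤ w) : ∀ (j : ℕ) (A : List (SL2 F))
    (B C : Fin j → List (SL2 F)), (∀ i, w ≤ Nat.card (US L (C i))) →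
    (∑ g : Fin j → SL2 F, ((Fintype.card F : ℝ) ^ 2 /
      Nat.card (US L (A ++ (List.ofFn (fun i : Fin j => B i ++ g i :: C i)).flatten)) - 1)) * (w : ℝ) ^ j
    ≤ (Fintype.card (SL2 F) : ℝ) ^ j * ((Fintype.card F : ℝ) ^ 2 / Nat.card (US L A) - 1) := by
  have hw0 : (0 : ℝ) < w := by exact_mod_cast hw
  intro j
  induction j with
  | zero =>
    intro A B C _
    simp
  | succ j ih =>
    intro A B C hC
    have hone : ∀ S : AddSubgroup (Fin 2 → F), 0 ≤ (Fintype.card F : ℝ) ^ 2 / Nat.card S - 1 := by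
      intro S
      have hS : (0 : ℝ) < Nat.card S := by exact_mod_cast Nat.card_pos
      have h3 : Nat.card S ≤ Nat.card (Fin 2 → F) := Nat.card_le_card_of_injective _ Subtype.val_injective
      rw [Nat.card_eq_fintype_card (α := Fin 2 → F), Fintype.card_fun, Fintype.card_fin] at h3
      have h4 : (Nat.card S : ℝ) ≤ (Fintype.card F : ℝ) ^ 2 := by exact_mod_cast h3
      rw [sub_nonneg, le_div_iff₀ hS, one_mul]
      exact h4
    rw [← (Fin.consEquiv (fun _ : Fin (j + 1) => SL2 F)).sum_comp, Fintype.sum_prod_type]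
    have h1 : ∀ (x : SL2 F) (y : Fin j → SL2 F),
        A ++ (List.ofFn (fun i : Fin (j + 1) => B i ++
          ((Fin.consEquiv (fun _ : Fin (j + 1) => SL2 F)) (x, y)) i :: C i)).flatten =
        (A ++ (B 0 ++ x :: C 0)) ++ (List.ofFn (fun i : Fin j => B i.succ ++ y i :: C i.succ)).flatten := by
      intro x y
      rw [List.ofFn_succ, List.flatten_cons, ← List.append_assoc]
      rfl
    simp only [h1]
    rw [Finset.sum_mul]
    have h2 : ∀ x : SL2 F, (∑ y : Fin j → SL2 F, ((Fintype.card F : ℝ) ^ 2 /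
        Nat.card (US L ((A ++ (B 0 ++ x :: C 0)) ++
          (List.ofFn (fun i : Fin j => B i.succ ++ y i :: C i.succ)).flatten)) - 1)) * (w : ℝ) ^ (j + 1) ≤
        w * ((Fintype.card (SL2 F) : ℝ) ^ j *
          ((Fintype.card F : ℝ) ^ 2 / Nat.card (US L A ⊔ (US L (C 0)).map (act (A.prod * (B 0).prod * x)) :
            AddSubgroup (Fin 2 → F)) - 1)) := by
      intro x
      have h3 := ih (A ++ (B 0 ++ x :: C 0)) (fun i => B i.succ) (fun i => C i.succ) (fun i => hC i.succ)
      rw [pow_succ (w : ℝ) j, mul_comm ((w : ℝ) ^ j), ← mul_assoc, mul_comm _ (w : ℝ), mul_assoc]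
      refine mul_le_mul_of_nonneg_left (h3.trans ?_) hw0.le
      refine mul_le_mul_of_nonneg_left ?_ (by positivity)
      apply sub_le_sub_right
      apply div_le_div_of_nonneg_left (by positivity) (by exact_mod_cast Nat.card_pos)
      have h4 : US L A ⊔ (US L (C 0)).map (act (A.prod * (B 0).prod * x)) ≤
          US L (A ++ (B 0 ++ x :: C 0)) := by
        have e : A ++ (B 0 ++ x :: C 0) = (A ++ (B 0 ++ [x])) ++ C 0 := by simp
        have e2 := US_le L (A ++ (B 0 ++ [x])) (C 0)
        have e3 := US_le L A (B 0 ++ [x])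
        have e4 : (A ++ (B 0 ++ [x])).prod = A.prod * (B 0).prod * x := by
          simp [mul_assoc]
        rw [e4] at e2
        rw [e]
        exact (sup_le_sup_right (le_sup_left.trans e3) _).trans e2
      exact_mod_cast Nat.card_le_card_of_injective _ (AddSubgroup.inclusion_injective h4)
    refine (Finset.sum_le_sum (fun x _ => h2 x)).trans ?_
    rw [← Finset.mul_sum, ← Finset.mul_sum]
    have h5 : (∑ x : SL2 F, ((Fintype.card F : ℝ) ^ 2 /
        Nat.card (US L A ⊔ (US L (C 0)).map (act (A.prod * (B 0).prod * x)) :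
            AddSubgroup (Fin 2 → F)) - 1)) ≤ Fintype.card (SL2 F) *
          (((Fintype.card F : ℝ) ^ 2 / Nat.card (US L A) - 1) / w) := by
      have h6 := Equiv.sum_comp (Equiv.mulLeft (A.prod * (B 0).prod)) (fun h : SL2 F =>
        ((Fintype.card F : ℝ) ^ 2 / Nat.card (US L A ⊔ (US L (C 0)).map (act h) :
            AddSubgroup (Fin 2 → F)) - 1))
      simp only [Equiv.coe_mulLeft] at h6
      rw [h6]
      refine (hrg F (US L A) (US L (C 0))).trans ?_
      refine mul_le_mul_of_nonneg_left ?_ (by positivity)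
      apply div_le_div_of_nonneg_left (hone _) hw0
      exact_mod_cast hC 0
    calc _ ≤ (w : ℝ) * ((Fintype.card (SL2 F) : ℝ) ^ j * (Fintype.card (SL2 F) *
          (((Fintype.card F : ℝ) ^ 2 / Nat.card (US L A) - 1) / w))) := by
          refine mul_le_mul_of_nonneg_left ?_ hw0.le
          exact mul_le_mul_of_nonneg_left h5 (by positivity)
      _ = _ := by
          rw [pow_succ]
          field_simp
          ring

open Classical in
theorem rgj : S_RG → S_RGJ := by
  intro hrg F _ _ _ L j A B C w hw hC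
  have h0 := rgj_aux hrg F L w hw j A B C hC
  have hw0 : (0 : ℝ) < w := by exact_mod_cast hw
  have hcard : ∀ S : AddSubgroup (Fin 2 → F), (Nat.card S : ℝ) * S.index = (Fintype.card F : ℝ) ^ 2 := by
    intro S
    have h3 := S.card_mul_index
    rw [Nat.card_eq_fintype_card (α := Fin 2 → F), Fintype.card_fun, Fintype.card_fin] at h3
    exact_mod_cast h3
  have hphi : ∀ S : AddSubgroup (Fin 2 → F), (Fintype.card F : ℝ) ^ 2 / Nat.card S - 1 = (S.index : ℝ) - 1 := by
    intro S
    have hS : (0 : ℝ) < Nat.card S := by exact_mod_cast Nat.card_pos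
    rw [← hcard S]
    field_simp
  have hidx : ∀ S : AddSubgroup (Fin 2 → F), 1 ≤ S.index := by
    intro S
    exact Nat.one_le_iff_ne_zero.mpr AddSubgroup.index_ne_zero_of_finite
  have h1 : ((Finset.univ.filter (fun g : Fin j → SL2 F =>
      US L (A ++ (List.ofFn (fun i : Fin j => B i ++ g i :: C i)).flatten) ≠ ⊤)).card : ℝ) ≤
      ∑ g : Fin j → SL2 F, ((Fintype.card F : ℝ) ^ 2 /
      Nat.card (US L (A ++ (List.ofFn (fun i : Fin j => B i ++ g i :: C i)).flatten)) - 1) := by
    rw [← Finset.sum_boole]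
    refine Finset.sum_le_sum (fun g _ => ?_)
    rw [hphi]
    split_ifs with hg
    · have h2 : (US L (A ++ (List.ofFn (fun i : Fin j => B i ++ g i :: C i)).flatten)).index ≠ 1 := by
        rw [Ne, AddSubgroup.index_eq_one]
        exact hg
      have h3 := hidx (US L (A ++ (List.ofFn (fun i : Fin j => B i ++ g i :: C i)).flatten))
      have h4 : 2 ≤ (US L (A ++ (List.ofFn (fun i : Fin j => B i ++ g i :: C i)).flatten)).index := by omega
      have h5 : (2 : ℝ) ≤ (US L (A ++ (List.ofFn (fun i : Fin j => B i ++ g i :: C i)).flatten)).index := by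
        exact_mod_cast h4
      linarith
    · have h3 : (1 : ℝ) ≤ (US L (A ++ (List.ofFn (fun i : Fin j => B i ++ g i :: C i)).flatten)).index := by
        exact_mod_cast hidx _
      linarith
  have h2 : (Fintype.card F : ℝ) ^ 2 / Nat.card (US L A) - 1 ≤ (Fintype.card F : ℝ) ^ 2 := by
    have hS : (1 : ℝ) ≤ Nat.card (US L A) := by exact_mod_cast Nat.card_pos
    have := div_le_self (show (0 : ℝ) ≤ (Fintype.card F : ℝ) ^ 2 by positivity) hS
    linarith
  have h3 : ((Finset.univ.filter (fun g : Fin j → SL2 F =>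
      US L (A ++ (List.ofFn (fun i : Fin j => B i ++ g i :: C i)).flatten) ≠ ⊤)).card : ℝ) * (w : ℝ) ^ j ≤
      (Fintype.card (SL2 F) : ℝ) ^ j * (Fintype.card F : ℝ) ^ 2 :=
    (mul_le_mul_of_nonneg_right h1 (by positivity)).trans (h0.trans
      (mul_le_mul_of_nonneg_left h2 (by positivity)))
  exact_mod_cast h3

end Pool.Agent.Y475.CE
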